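import Mathlib

namespace Pool.Agent.MP_64e319_co

open Set Function

variable {α : Type*}

/-- The cone over the realisation of a complex. -/
def cone (K : Set (Set α)) : Set (α → ℝ) := {a | 0 ≤ a ∧ support a ∈ K}

/-- The complex is realised as a complete simplicial fan in a space of dimension `r`. -/
def IsFan (K : Set (Set α)) (r : ℕ) : Prop :=
  ∃ L : (α → ℝ) →L[ℝ] EuclideanSpace ℝ (Fin r), BijOn L (cone K) univ

theorem isFan_of {V : Type} [NormedAddCommGroup V] [NormedSpace ℝ V] [FiniteDimensional ℝ V]
    {K : Set (Set α)} {r : ℕ} (hr : Module.finrank ℝ V = r) (L : (α → ℝ) →L[ℝ] V)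
    (hL : BijOn L (cone K) univ) : IsFan K r := by
  have h : Module.finrank ℝ V = Module.finrank ℝ (EuclideanSpace ℝ (Fin r)) := by
    simp [hr]
  let e := ContinuousLinearEquiv.ofFinrankEq h
  refine ⟨(e : V →L[ℝ] _).comp L, ?_⟩
  have he : BijOn e univ univ := Set.bijOn_univ.2 e.bijective
  exact he.comp hL

/-- One point suspension (wedge) at `f` with new vertex `g`. -/
def wedge (K : Set (Set α)) (f g : α) : Set (Set α) :=
  {t | t \ {g} ∈ K ∨ (g ∉ t ∧ t \ {f} ∈ K)}

theorem wedge_lower {K : Set (Set α)} (hK : IsLowerSet K) (f g : α) :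
    IsLowerSet (wedge K f g) := by
  intro s t hts hs
  rcases hs with hs | ⟨hg, hs⟩
  · exact Or.inl (hK (sdiff_subset_sdiff_left hts) hs)
  · exact Or.inr ⟨fun h => hg (hts h), hK (sdiff_subset_sdiff_left hts) hs⟩

theorem wedge_isFan {K : Set (Set α)} (hK : IsLowerSet K) {f g : α} (hfg : f ≠ g)
    (hg : ∀ s ∈ K, g ∉ s) {r : ℕ} (h : IsFan K r) : IsFan (wedge K f g) (r + 1) := by
  classical
  obtain ⟨L, hL⟩ := h
  let φ : (α → ℝ) →L[ℝ] (α → ℝ) :=
    ContinuousLinearMap.id ℝ _ -
      (ContinuousLinearMap.proj (R := ℝ) (φ := fun _ : α => ℝ) g).smulRight (Pi.single g 1)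
  have hφ : ∀ a, φ a = a - a g • Pi.single g 1 := fun a => by simp [φ]
  let T : (α → ℝ) →L[ℝ] ℝ :=
    ContinuousLinearMap.proj (R := ℝ) (φ := fun _ : α => ℝ) f -
      ContinuousLinearMap.proj (R := ℝ) (φ := fun _ : α => ℝ) g
  have hT : ∀ a, T a = a f - a g := fun a => by simp [T]
  refine isFan_of (V := EuclideanSpace ℝ (Fin r) × ℝ) (by simp) ((L.comp φ).prod T) ?_
  have key : ∀ a ∈ cone (wedge K f g),
      φ a - max (a f - a g) 0 • (Pi.single f 1 : α → ℝ) ∈ cone K := by
    rintro a ⟨ha0, ha⟩
    have hval : ∀ e, (φ a - max (a f - a g) 0 • (Pi.single f 1 : α → ℝ)) e =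
        if e = g then 0 else if e = f then min (a f) (a g) else a e := by
      intro e
      rw [hφ]
      by_cases h1 : e = g
      · subst h1
        simp [Pi.single_apply, hfg.symm]
      · by_cases h2 : e = f
        · subst h2
          simp only [Pi.sub_apply, Pi.smul_apply, Pi.single_apply, h1, if_false, if_true,
            smul_eq_mul, mul_zero, mul_one, sub_zero]
          rcases le_total (a e) (a g) with h | h
          · rw [max_eq_right (by linarith), min_eq_left h]; ring
          · rw [max_eq_left (by linarith), min_eq_right h]; ring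
        · simp [Pi.single_apply, h1, h2]
    refine ⟨fun e => ?_, ?_⟩
    · rw [hval]
      have := ha0 e
      have h1 := ha0 f
      have h2 := ha0 g
      simp only [Pi.zero_apply] at *
      split_ifs
      · exact le_rfl
      · exact le_min h1 h2
      · exact this
    · rcases ha with ha | ⟨hga, ha⟩
      · refine hK (fun e he => ?_) ha
        rw [mem_support, hval] at he
        split_ifs at he with h1 h2
        · exact (he rfl).elim
        · subst h2
          refine ⟨fun h0 => he ?_, h1⟩
          have h2 := ha0 g
          simp only [Pi.zero_apply] at h2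
          rw [h0, min_eq_left h2]
        · exact ⟨he, h1⟩
      · refine hK (fun e he => ?_) ha
        rw [mem_support, hval] at he
        have hg0 : a g = 0 := by simpa using hga
        split_ifs at he with h1 h2
        · exact (he rfl).elim
        · refine (he ?_).elim
          have h2 := ha0 f
          simp only [Pi.zero_apply] at h2
          rw [hg0, min_eq_right h2]
        · exact ⟨he, h2⟩
  refine ⟨mapsTo_univ _ _, ?_, ?_⟩
  · intro a ha b hb hab
    simp only [ContinuousLinearMap.prod_apply, ContinuousLinearMap.comp_apply, Prod.mk.injEq,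
      hT] at hab
    obtain ⟨h1, h2⟩ := hab
    have h3 := hL.injOn (key a ha) (key b hb) (by simp only [map_sub, map_smul, h1, h2])
    rw [h2, sub_left_inj, hφ, hφ] at h3
    have hf : a f = b f := by
      have := congrFun h3 f
      simpa [Pi.single_apply, hfg] using this
    funext e
    by_cases he : e = g
    · subst he; linarith
    · have := congrFun h3 e
      simpa [Pi.single_apply, he] using this
  · rintro ⟨x, t⟩ -
    obtain ⟨c, ⟨hc0, hc⟩, hcx⟩ := hL.surjOn (mem_univ (x - max t 0 • L (Pi.single f 1)))
    have hcg : c g = 0 := by simpa using hg _ hc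
    let a : α → ℝ := c + max t 0 • (Pi.single f 1 : α → ℝ) +
      (c f + max (-t) 0) • (Pi.single g 1 : α → ℝ)
    have haf : a f = c f + max t 0 := by simp [a, Pi.single_apply, hfg]
    have hag : a g = c f + max (-t) 0 := by simp [a, Pi.single_apply, hfg.symm, hcg]
    have hae : ∀ e, e ≠ f → e ≠ g → a e = c e := by
      intro e h1 h2
      simp [a, Pi.single_apply, h1, h2]
    have hcf := hc0 f
    simp only [Pi.zero_apply] at hcf
    refine ⟨a, ⟨fun e => ?_, ?_⟩, ?_⟩
    · simp only [Pi.zero_apply]
      by_cases h1 : e = f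
      · rw [h1, haf]; positivity
      · by_cases h2 : e = g
        · rw [h2, hag]; positivity
        · rw [hae e h1 h2]; exact hc0 e
    · by_cases h0 : c f = 0 ∧ 0 ≤ t
      · right
        refine ⟨?_, hK (fun e he => ?_) hc⟩
        · simp only [mem_support, not_not]
          rw [hag, h0.1, max_eq_right (by linarith [h0.2])]; ring
        · have h2 : e ≠ g := by
            rintro rfl
            apply he.1
            rw [hag, h0.1, max_eq_right (by linarith [h0.2])]; ring
          have := he.1
          rw [mem_support, hae e he.2 h2] at this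
          exact this
      · left
        refine hK (fun e he => ?_) hc
        by_cases h1 : e = f
        · subst h1
          intro h3
          apply he.1
          have : t < 0 := by
            by_contra h4
            exact h0 ⟨h3, not_lt.1 h4⟩
          rw [haf, h3, max_eq_right this.le]; ring
        · have := he.1
          rw [mem_support, hae e h1 he.2] at this
          exact this
    · simp only [ContinuousLinearMap.prod_apply, ContinuousLinearMap.comp_apply, Prod.mk.injEq, hT]
      constructor
      · have : φ a = c + max t 0 • (Pi.single f 1 : α → ℝ) := by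
          rw [hφ, hag]; simp [a]
        rw [this, map_add, map_smul, hcx]; simp
      · rw [haf, hag]
        rcases le_total t 0 with h | h
        · rw [max_eq_right h, max_eq_left (by linarith)]; ring
        · rw [max_eq_left h, max_eq_right (by linarith)]; ring

/-- Stellar subdivision at the face `σ` with new vertex `f`. -/
def stellar (K : Set (Set α)) (σ : Set α) (f : α) : Set (Set α) :=
  {t | ¬ σ ⊆ t ∧ (t ∈ K ∨ (t \ {f}) ∪ σ ∈ K)}

theorem stellar_lower {K : Set (Set α)} (hK : IsLowerSet K) (σ : Set α) (f : α) :
    IsLowerSet (stellar K σ f) := by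
  intro s t hts hs
  refine ⟨fun h => hs.1 (h.trans hts), ?_⟩
  rcases hs.2 with hs | hs
  · exact Or.inl (hK hts hs)
  · exact Or.inr (hK (union_subset_union_left _ (sdiff_subset_sdiff_left hts)) hs)

theorem stellar_isFan {K : Set (Set α)} (hK : IsLowerSet K) {σ : Set α} {f : α}
    (hσ : σ.Finite) (hne : σ.Nonempty) (hfσ : f ∉ σ)
    (hf : ∀ s ∈ K, f ∉ s) {r : ℕ} (h : IsFan K r) : IsFan (stellar K σ f) r := by
  classical
  obtain ⟨L, hL⟩ := h
  let ψ : (α → ℝ) →L[ℝ] (α → ℝ) :=
    ContinuousLinearMap.id ℝ _ +
      (ContinuousLinearMap.proj (R := ℝ) (φ := fun _ : α => ℝ) f).smulRight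
        (σ.indicator 1 - Pi.single f 1)
  have hψ : ∀ a e, ψ a e = if e = f then 0 else if e ∈ σ then a e + a f else a e := by
    intro a e
    by_cases h1 : e = f
    · subst h1
      simp [ψ, hfσ]
    · by_cases h2 : e ∈ σ
      · simp [ψ, h1, h2]
      · simp [ψ, h1, h2]
  refine ⟨L.comp ψ, hL.comp (f := ψ) ⟨?_, ?_, ?_⟩⟩
  · rintro a ⟨ha0, hns, ha⟩
    refine ⟨fun e => ?_, ?_⟩
    · rw [hψ]
      have h1 := ha0 e
      have h2 := ha0 f
      simp only [Pi.zero_apply] at *
      split_ifs
      · exact le_rfl
      · positivity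
      · exact h1
    · rcases ha with ha | ha
      · have hf0 : a f = 0 := by simpa using hf _ ha
        refine hK (fun e he => ?_) ha
        rw [mem_support, hψ] at he
        split_ifs at he with h1 h2
        · exact (he rfl).elim
        · rw [hf0, add_zero] at he; exact he
        · exact he
      · refine hK (fun e he => ?_) ha
        rw [mem_support, hψ] at he
        split_ifs at he with h1 h2
        · exact (he rfl).elim
        · exact Or.inr h2
        · exact Or.inl ⟨he, h1⟩
  · rintro a ⟨ha0, hns, -⟩ b ⟨hb0, hns', -⟩ hab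
    obtain ⟨x, hx, hxa⟩ := not_subset.1 hns
    obtain ⟨y, hy, hyb⟩ := not_subset.1 hns'
    have hxa0 : a x = 0 := by simpa using hxa
    have hyb0 : b y = 0 := by simpa using hyb
    have hxf : x ≠ f := fun h => hfσ (h ▸ hx)
    have hyf : y ≠ f := fun h => hfσ (h ▸ hy)
    have h1 := congrFun hab x
    have h2 := congrFun hab y
    simp only [hψ, hxf, hyf, hx, hy, if_true, if_false] at h1 h2
    have h3 := ha0 y
    have h4 := hb0 x
    simp only [Pi.zero_apply] at h3 h4
    have hff : a f = b f := by linarith
    funext e
    have h5 := congrFun hab e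
    simp only [hψ] at h5
    split_ifs at h5 with h6 h7
    · rw [h6, hff]
    · linarith
    · exact h5
  · rintro c ⟨hc0, hc⟩
    obtain ⟨x, hx, hmin⟩ := exists_min_image σ c hσ hne
    have hcf : c f = 0 := by simpa using hf _ hc
    have hxf : x ≠ f := fun h => hfσ (h ▸ hx)
    let a : α → ℝ := fun e => if e = f then c x else if e ∈ σ then c e - c x else c e
    have hcx := hc0 x
    simp only [Pi.zero_apply] at hcx
    refine ⟨a, ⟨fun e => ?_, ?_, ?_⟩, ?_⟩
    · simp only [Pi.zero_apply, a]
      split_ifs with h1 h2
      · exact hcx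
      · linarith [hmin e h2]
      · exact hc0 e
    · intro h
      apply h hx
      simp [a, hxf, hx]
    · by_cases h0 : c x = 0
      · left
        refine hK (fun e he => ?_) hc
        simp only [mem_support, a] at he
        split_ifs at he with h1 h2
        · exact (he h0).elim
        · rw [h0, sub_zero] at he; exact he
        · exact he
      · right
        refine hK (fun e he => ?_) hc
        by_cases h2 : e ∈ σ
        · have := hmin e h2
          have h3 : 0 < c x := lt_of_le_of_ne hcx (Ne.symm h0)
          exact (lt_of_lt_of_le h3 this).ne'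
        · rcases he with he | he
          · have h4 := he.1
            have h5 : e ≠ f := he.2
            simp only [mem_support, a, h5, h2, if_false] at h4
            exact h4
          · exact (h2 he).elim
    · funext e
      rw [hψ]
      by_cases h1 : e = f
      · simp [h1, hcf]
      · by_cases h2 : e ∈ σ
        · simp [a, h1, h2]
        · simp [a, h1, h2]

/-- Join with the boundary of the simplex on `C`. -/
def joinBd (K : Set (Set α)) (C : Set α) : Set (Set α) := {t | t \ C ∈ K ∧ ¬ C ⊆ t}

theorem joinBd_lower {K : Set (Set α)} (hK : IsLowerSet K) (C : Set α) :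
    IsLowerSet (joinBd K C) := by
  intro s t hts hs
  exact ⟨hK (sdiff_subset_sdiff_left hts) hs.1, fun h => hs.2 (h.trans hts)⟩

theorem joinBd_isFan {K : Set (Set α)} (hK : IsLowerSet K) {r : ℕ} (h : IsFan K r) {f : α}
    {σ : Set α} (hσ : σ.Finite) :
    f ∉ σ → (∀ s ∈ K, Disjoint s (insert f σ)) → IsFan (joinBd K (insert f σ)) (r + σ.ncard) := by
  induction σ, hσ using Set.Finite.induction_on with
  | empty =>
    intro _ hd
    have : joinBd K (insert f ∅) = K := by
      ext t
      simp only [joinBd, insert_empty_eq, mem_ofPred_eq, singleton_subset_iff]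
      constructor
      · rintro ⟨h1, h2⟩
        rwa [sdiff_singleton_eq_self h2] at h1
      · intro ht
        have h2 : f ∉ t := by simpa using hd t ht
        exact ⟨by rwa [sdiff_singleton_eq_self h2], h2⟩
    rw [this]
    simpa using h
  | @insert g σ hg hσ ih =>
    intro hf hd
    have hfg : f ≠ g := fun h => hf (h ▸ mem_insert _ _)
    have hfσ : f ∉ σ := fun h => hf (mem_insert_of_mem _ h)
    have hd' : ∀ s ∈ K, Disjoint s (insert f σ) := fun s hs =>
      (hd s hs).mono_right (insert_subset_insert (subset_insert _ _))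
    have h1 := wedge_isFan (joinBd_lower hK (insert f σ)) hfg (fun s hs hgs => ?_) (ih hfσ hd')
    · rw [ncard_insert_of_notMem hg hσ, ← add_assoc]
      convert h1 using 1
      ext t
      simp only [joinBd, wedge, mem_ofPred_eq]
      have e1 : (t \ {g}) \ insert f σ = t \ insert f (insert g σ) := by
        ext x; simp only [mem_sdiff, mem_singleton_iff, mem_insert_iff]; tauto
      constructor
      · rintro ⟨h2, h3⟩
        by_cases hgt : g ∈ t
        · left
          refine ⟨by rwa [e1], fun h4 => h3 ?_⟩
          rintro x (rfl | rfl | hx)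
          · exact (h4 (mem_insert _ _)).1
          · exact hgt
          · exact (h4 (mem_insert_of_mem _ hx)).1
        · right
          refine ⟨hgt, hK ?_ h2, fun h4 => (h4 (mem_insert _ _)).2 rfl⟩
          rintro x ⟨⟨hx1, hx2⟩, hx3⟩
          refine ⟨hx1, ?_⟩
          rintro (rfl | rfl | hx)
          · exact hx2 rfl
          · exact hgt hx1
          · exact hx3 (mem_insert_of_mem _ hx)
      · rintro (⟨h2, h3⟩ | ⟨hgt, h2, -⟩)
        · refine ⟨by rwa [← e1], fun h4 => h3 ?_⟩
          rintro x (rfl | hx)
          · exact ⟨h4 (mem_insert _ _), hfg⟩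
          · exact ⟨h4 (mem_insert_of_mem _ (mem_insert_of_mem _ hx)), fun h => hg (h ▸ hx)⟩
        · refine ⟨hK ?_ h2, fun h4 => hgt (h4 (mem_insert_of_mem _ (mem_insert _ _)))⟩
          rintro x ⟨hx1, hx2⟩
          simp only [mem_insert_iff, not_or] at hx2
          exact ⟨⟨hx1, hx2.1⟩, by simp [hx2.1, hx2.2.2]⟩
    · have h2 := hd _ hs.1
      refine Set.disjoint_left.1 h2 (show g ∈ s \ insert f σ from ⟨hgs, ?_⟩)
        (mem_insert_of_mem _ (mem_insert _ _))
      rintro (h | h)
      · exact hfg h.symm
      · exact hg h

end Pool.Agent.MP_64e319_co
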