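import Pool.Agent.MP_64e319_co.Fan

namespace Pool.Agent.MP_64e319_co

open Set Function
open scoped Matroid

variable {α : Type*}

/-- The conclusion carried through the induction. -/
def Good (M : Matroid α) (B B' : Set α) : Prop :=
  ∃ K : Set (Set α), IsLowerSet K ∧ (∀ s ∈ K, M.Indep s) ∧ B ∈ K ∧ B' ∈ K ∧ IsFan K B.ncard

theorem good_empty (M : Matroid α) : Good M ∅ ∅ := by
  refine ⟨{∅}, ?_, ?_, rfl, rfl, 0, mapsTo_univ _ _, ?_, ?_⟩
  · intro s t hts hs
    rw [mem_singleton_iff] at hs ⊢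
    subst hs
    exact subset_empty_iff.1 hts
  · rintro s rfl
    exact M.empty_indep
  · rintro a ⟨-, ha⟩ b ⟨-, hb⟩ -
    rw [mem_singleton_iff, support_eq_empty_iff] at ha hb
    rw [ha, hb]
  · intro x _
    refine ⟨0, ⟨le_rfl, by simp⟩, ?_⟩
    have : IsEmpty (Fin (∅ : Set α).ncard) := by simp; infer_instance
    exact Subsingleton.elim _ _

theorem exists_base_notMem {M : Matroid α} {x : α} (h : ¬ M.IsColoop x) :
    ∃ D, M.IsBase D ∧ x ∉ D := by
  rw [Matroid.isColoop_iff_forall_mem_isBase] at h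
  push Not at h
  exact h

theorem delete_base {M : Matroid α} {f : α} {D : Set α} (hD : M.IsBase D) (hf : f ∉ D) :
    (M ＼ {f}).IsBase D := by
  rw [Matroid.delete_isBase_iff]
  exact hD.isBasis_ground.isBasis_subset (subset_sdiff_singleton hD.subset_ground hf) sdiff_subset

theorem contract_base {M : Matroid α} {I C D : Set α} (hI : M.IsBasis I C) (hD : M.IsBase D)
    (hID : I ⊆ D) : (M ／ C).IsBase (D \ C) := by
  have h2 : (M ／ C).IsBasis (D \ C) (M.E \ C) :=
    hD.isBasis_ground.contract_isBasis_of_isBasis' hI.isBasis'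
      (hD.indep.subset (union_subset sdiff_subset hID))
  rwa [← Matroid.contract_ground, Matroid.isBasis_ground_iff] at h2

theorem step_series {M : Matroid α} [M.Finite] (hM : ∀ e, ¬ M.IsColoop e) {B B' : Set α}
    (hB : M.IsBase B) (hB' : M.IsBase B') {f g : α} (hfB' : f ∈ B') (hfB : f ∉ B)
    (hg : (M ＼ {f}).IsColoop g)
    (ih : ∀ D D', (M ／ {g}).IsBase D → (M ／ {g}).IsBase D' → Good (M ／ {g}) D D') :
    Good M B B' := by
  have hser : ∀ D, M.IsBase D → f ∉ D → g ∈ D := fun D hD hf =>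
    hg.mem_of_isBase (delete_base hD hf)
  have hgB : g ∈ B := hser B hB hfB
  have hfg : f ≠ g := fun h => hfB (h ▸ hgB)
  have hgi : M.Indep {g} := hB.indep.subset (singleton_subset_iff.2 hgB)
  have hbase : ∀ D, M.IsBase D → g ∈ D → (M ／ {g}).IsBase (D \ {g}) := fun D hD hgD =>
    contract_base hgi.isBasis_self hD (singleton_subset_iff.2 hgD)
  have hind : ∀ s, (M ／ {g}).Indep s → g ∉ s ∧ M.Indep (insert g s) := by
    intro s hs
    rw [hgi.contract_indep_iff] at hs
    exact ⟨by simpa using hs.1, by simpa using hs.2⟩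
  have hwedge : ∀ K : Set (Set α), (∀ s ∈ K, (M ／ {g}).Indep s) →
      ∀ s ∈ wedge K f g, M.Indep s := by
    intro K hK s hs
    rcases hs with hs | ⟨hgs, hs⟩
    · refine (hind _ (hK _ hs)).2.subset ?_
      rw [insert_sdiff_singleton]
      exact subset_insert _ _
    · obtain ⟨D, hD, hsD⟩ := (hind _ (hK _ hs)).2.exists_isBase_superset
      have hsD' : s ⊆ insert f (D \ {g}) := by
        intro x hx
        by_cases hxf : x = f
        · exact Or.inl hxf
        · exact Or.inr ⟨hsD (Or.inr ⟨hx, hxf⟩), fun h => hgs (h ▸ hx)⟩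
      by_cases hfD : f ∈ D
      · exact hD.indep.subset (hsD'.trans (insert_subset hfD sdiff_subset))
      · obtain ⟨D2, hD2, hgD2⟩ := exists_base_notMem (hM g)
        obtain ⟨y, hy, hy'⟩ := hD.exchange hD2 ⟨hsD (mem_insert _ _), hgD2⟩
        have hgy : g ∉ insert y (D \ {g}) := by
          rintro (h | h)
          · exact hgD2 (h ▸ hy.1)
          · exact h.2 rfl
        have hfy : f ∈ insert y (D \ {g}) := by
          by_contra h
          exact hgy (hser _ hy' h)
        rcases hfy with h | h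
        · subst h
          exact hy'.indep.subset hsD'
        · exact (hfD h.1).elim
  have hcard : (B \ {g}).ncard + 1 = B.ncard :=
    ncard_sdiff_singleton_add_one hgB hB.finite
  by_cases hgB' : g ∈ B'
  · obtain ⟨K, hK, hKi, h1, h2, h3⟩ := ih _ _ (hbase B hB hgB) (hbase B' hB' hgB')
    refine ⟨wedge K f g, wedge_lower hK f g, hwedge K hKi, Or.inl h1, Or.inl h2, ?_⟩
    rw [← hcard]
    exact wedge_isFan hK hfg (fun s hs => (hind s (hKi s hs)).1) h3
  · obtain ⟨y, hy, hy'⟩ := hB'.exchange hB ⟨hfB', hfB⟩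
    have hfy : f ∉ insert y (B' \ {f}) := by
      rintro (h | h)
      · exact hfB (h ▸ hy.1)
      · exact h.2 rfl
    have hgy : g = y := by
      rcases hser _ hy' hfy with h | h
      · exact h
      · exact (hgB' h.1).elim
    subst hgy
    have hb := hbase _ hy' (mem_insert _ _)
    obtain ⟨K, hK, hKi, h1, h2, h3⟩ := ih _ _ (hbase B hB hgB) hb
    refine ⟨wedge K f g, wedge_lower hK f g, hwedge K hKi, Or.inl h1, Or.inr ⟨hgB', hK ?_ h2⟩, ?_⟩
    · intro x hx
      exact ⟨Or.inr hx, fun h => hgB' (h ▸ hx.1)⟩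
    · rw [← hcard]
      exact wedge_isFan hK hfg (fun s hs => (hind s (hKi s hs)).1) h3

theorem step_stellar {M : Matroid α} [M.Finite] {B B' : Set α} {f e : α} {C : Set α}
    (heB' : e ∉ B') (hC : M.IsCircuit C) (hfC : f ∈ C) (heC : e ∈ C) (hef : e ≠ f)
    (hCs : C \ {f} ⊆ insert e (B' \ {f})) (hns : ¬ C \ {f} ⊆ B)
    (ih : Good (M ＼ {f}) B (insert e (B' \ {f}))) : Good M B B' := by
  obtain ⟨K, hK, hKi, h1, h2, h3⟩ := ih
  have hKi' : ∀ s ∈ K, M.Indep s ∧ f ∉ s := fun s hs =>
    Matroid.deleteElem_indep_iff.1 (hKi s hs)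
  refine ⟨stellar K (C \ {f}) f, stellar_lower hK _ _, ?_, ⟨hns, Or.inl h1⟩,
    ⟨fun h => heB' (h ⟨heC, hef⟩), Or.inr (hK ?_ h2)⟩, ?_⟩
  · rintro t ⟨ht, ht' | ht'⟩
    · exact (hKi' _ ht').1
    · obtain ⟨hJ, hfJ⟩ := hKi' _ ht'
      by_contra hdep
      have htE : t ⊆ M.E := by
        intro x hx
        by_cases hxf : x = f
        · exact hxf ▸ hC.subset_ground hfC
        · exact hJ.subset_ground (Or.inl ⟨hx, hxf⟩)
      obtain ⟨C', hC't, hC'⟩ := (Matroid.Dep.exists_isCircuit_subset ⟨hdep, htE⟩)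
      have e1 : C = M.fundCircuit f ((t \ {f}) ∪ (C \ {f})) :=
        hC.eq_fundCircuit_of_subset hJ (fun x hx => by
          by_cases hxf : x = f
          · exact Or.inl hxf
          · exact Or.inr (Or.inr ⟨hx, hxf⟩))
      have e2 : C' = M.fundCircuit f ((t \ {f}) ∪ (C \ {f})) :=
        hC'.eq_fundCircuit_of_subset hJ (fun x hx => by
          by_cases hxf : x = f
          · exact Or.inl hxf
          · exact Or.inr (Or.inl ⟨hC't hx, hxf⟩))
      have e3 : C = C' := e1.trans e2.symm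
      exact ht (sdiff_subset.trans (e3 ▸ hC't))
  · exact union_subset (subset_insert _ _) hCs
  · exact stellar_isFan hK ((M.ground_finite.subset hC.subset_ground).subset sdiff_subset)
      (⟨e, heC, hef⟩ : (C \ {f}).Nonempty) (fun h => h.2 rfl) (fun s hs => (hKi' s hs).2) h3

theorem step_join {M : Matroid α} [M.Finite] {B B' : Set α} (hB : M.IsBase B) (hB' : M.IsBase B')
    {f e : α} {C : Set α} (hfB : f ∉ B) (heB' : e ∉ B') (hC : M.IsCircuit C) (hfC : f ∈ C)
    (heC : e ∈ C) (hCB : C \ {f} ⊆ B) (hCB' : C \ {e} ⊆ B')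
    (ih : ∀ D D', (M ／ C).IsBase D → (M ／ C).IsBase D' → Good (M ／ C) D D') :
    Good M B B' := by
  obtain ⟨K, hK, hKi, h1, h2, h3⟩ := ih _ _
    (contract_base (hC.sdiff_singleton_isBasis hfC) hB hCB)
    (contract_base (hC.sdiff_singleton_isBasis heC) hB' hCB')
  have hCfin : C.Finite := M.ground_finite.subset hC.subset_ground
  refine ⟨joinBd K C, joinBd_lower hK C, ?_, ⟨h1, fun h => hfB (h hfC)⟩,
    ⟨h2, fun h => heB' (h heC)⟩, ?_⟩
  · rintro t ⟨ht, ht'⟩
    obtain ⟨x, hxC, hxt⟩ := not_subset.1 ht'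
    have h4 := ((hC.sdiff_singleton_isBasis hxC).contract_indep_iff.1 (hKi _ ht)).1
    refine h4.subset (fun y hy => ?_)
    by_cases hyC : y ∈ C
    · exact Or.inr ⟨hyC, fun h => hxt (h ▸ hy)⟩
    · exact Or.inl ⟨hy, hyC⟩
  · have hCe : insert f (C \ {f}) = C := by
      rw [insert_sdiff_singleton, insert_eq_of_mem hfC]
    have h4 := joinBd_isFan hK h3 (f := f) (σ := C \ {f}) (hCfin.subset sdiff_subset)
      (fun h => h.2 rfl) (fun s hs => by
        rw [hCe]
        exact ((hC.sdiff_singleton_isBasis hfC).contract_indep_iff.1 (hKi _ hs)).2.symm)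
    rw [hCe] at h4
    have h5 : B \ C = B \ (C \ {f}) := by
      ext x
      simp only [mem_sdiff, mem_singleton_iff, not_and, not_not]
      exact ⟨fun h => ⟨h.1, fun h' => (h.2 h').elim⟩,
        fun h => ⟨h.1, fun h' => hfB (h.2 h' ▸ h.1)⟩⟩
    have h6 : (B \ C).ncard + (C \ {f}).ncard = B.ncard := by
      rw [h5]
      exact ncard_sdiff_add_ncard_of_subset hCB hB.finite
    rwa [h6] at h4

theorem good_of (n : ℕ) : ∀ (M : Matroid α) [M.Finite], M.E.ncard = n → (∀ e, ¬ M.IsColoop e) →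
    ∀ B B', M.IsBase B → M.IsBase B' → Good M B B' := by
  induction n using Nat.strong_induction_on with
  | _ n ih =>
  intro M _ hn hM
  have hlt : ∀ (X : Set α) (x : α), x ∈ X → x ∈ M.E → (M.E \ X).ncard < n := by
    intro X x hx hxE
    rw [← hn]
    exact ncard_lt_ncard ⟨sdiff_subset, fun h => (h hxE).2 hx⟩ M.ground_finite
  have hcon : ∀ (X : Set α) (x : α), x ∈ X → x ∈ M.E → ∀ D D', (M ／ X).IsBase D →
      (M ／ X).IsBase D' → Good (M ／ X) D D' := by
    intro X x hx hxE
    exact ih _ (hlt X x hx hxE) (M ／ X) rfl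
      (fun e he => hM e (Matroid.contract_isColoop_iff.1 he).1)
  have hne : ∀ B B', M.IsBase B → M.IsBase B' → B ≠ B' → Good M B B' := by
    intro B B' hB hB' hBB'
    have hns : ¬ B' ⊆ B := fun h => hBB' (hB'.eq_of_subset_isBase hB h).symm
    obtain ⟨f, hfB', hfB⟩ := not_subset.1 hns
    have hfE : f ∈ M.E := hB'.subset_ground hfB'
    by_cases hco : ∃ g, (M ＼ {f}).IsColoop g
    · obtain ⟨g, hg⟩ := hco
      exact step_series hM hB hB' hfB' hfB hg (hcon {g} g rfl hg.mem_ground.1)
    · push Not at hco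
      obtain ⟨e, he, hB''⟩ := hB'.exchange hB ⟨hfB', hfB⟩
      have hef : e ≠ f := fun h => hfB (h ▸ he.1)
      have hf'' : f ∉ insert e (B' \ {f}) := by
        rintro (h | h)
        · exact hef h.symm
        · exact h.2 rfl
      have hC := hB''.fundCircuit_isCircuit hfE hf''
      have hfC := M.mem_fundCircuit f (insert e (B' \ {f}))
      have hCs := M.fundCircuit_subset_insert f (insert e (B' \ {f}))
      set C := M.fundCircuit f (insert e (B' \ {f})) with hCdef
      have hCB' : C \ {e} ⊆ B' := by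
        rintro x ⟨hx, hxe⟩
        rcases hCs hx with h | h | h
        · exact h ▸ hfB'
        · exact (hxe h).elim
        · exact h.1
      have heC : e ∈ C := by
        by_contra h
        rw [sdiff_singleton_eq_self h] at hCB'
        exact hC.not_indep (hB'.indep.subset hCB')
      by_cases hCB : C \ {f} ⊆ B
      · exact step_join hB hB' hfB he.2 hC hfC heC hCB hCB' (hcon C f hfC hfE)
      · refine step_stellar he.2 hC hfC heC hef ?_ hCB
          (ih _ (hlt {f} f rfl hfE) (M ＼ {f}) rfl hco _ _ (delete_base hB hfB)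
            (delete_base hB'' hf''))
        rintro x ⟨hx, hxf⟩
        rcases hCs hx with h | h
        · exact (hxf h).elim
        · exact h
  intro B B' hB hB'
  by_cases hBB' : B = B'
  · subst hBB'
    rcases B.eq_empty_or_nonempty with rfl | ⟨x, hx⟩
    · exact good_empty M
    · obtain ⟨D, hD, hxD⟩ := exists_base_notMem (hM x)
      obtain ⟨K, hK, hKi, h1, -, h3⟩ := hne B D hB hD (fun h => hxD (h ▸ hx))
      exact ⟨K, hK, hKi, h1, h1, h3⟩
  · exact hne B B' hB hB' hBB'

end Pool.Agent.MP_64e319_co
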