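import Pool.Agent.MP_64e319_co.Induct

namespace Pool.Agent.MP_64e319_co

open Set Function

variable {α : Type*}

theorem finsum_eq_of_support {E : Set α} (hE : E.Finite) {a : α → ℝ} (ha : support a ⊆ E) :
    ∑ᶠ e, a e = ∑ e ∈ hE.toFinset, a e :=
  finsum_eq_sum_of_support_subset a (by simpa using ha)

theorem realization_compact {K : Set (Set α)} (hK : IsLowerSet K) {E : Set α} (hE : E.Finite)
    (hKE : ∀ s ∈ K, s ⊆ E) :
    IsCompact {a : α → ℝ | 0 ≤ a ∧ support a ∈ K ∧ ∑ᶠ e, a e = 1} := by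
  have hfin : K.Finite := hE.finite_subsets.subset hKE
  have heq : {a : α → ℝ | 0 ≤ a ∧ support a ∈ K ∧ ∑ᶠ e, a e = 1} =
      ⋃ s ∈ K, {a : α → ℝ | 0 ≤ a ∧ (∀ e, e ∉ s → a e = 0) ∧ ∑ e ∈ hE.toFinset, a e = 1} := by
    ext a
    simp only [mem_ofPred_eq, mem_iUnion, exists_prop]
    constructor
    · rintro ⟨h1, h2, h3⟩
      refine ⟨_, h2, h1, fun e he => by simpa using he, ?_⟩
      rwa [← finsum_eq_of_support hE (hKE _ h2)]
    · rintro ⟨s, hs, h1, h2, h3⟩
      have h4 : support a ⊆ s := fun e he => by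
        by_contra h
        exact he (h2 e h)
      refine ⟨h1, hK h4 hs, ?_⟩
      rwa [finsum_eq_of_support hE (h4.trans (hKE _ hs))]
  rw [heq]
  refine hfin.isCompact_biUnion (fun s hs => ?_)
  refine (isCompact_univ_pi (fun _ : α => isCompact_Icc (a := (0 : ℝ)) (b := 1))).of_isClosed_subset
    ?_ ?_
  · simp only [ofPred_and, ofPred_forall]
    refine IsClosed.inter (isClosed_le continuous_const continuous_id) (IsClosed.inter ?_ ?_)
    · exact isClosed_iInter (fun e => isClosed_iInter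
        (fun _ => isClosed_eq (continuous_apply e) continuous_const))
    · exact isClosed_eq (by fun_prop) continuous_const
  · rintro a ⟨h1, h2, h3⟩ e -
    refine ⟨h1 e, ?_⟩
    by_cases he : e ∈ s
    · rw [← h3]
      exact Finset.single_le_sum (f := a) (fun i _ => h1 i) (by simpa using hKE _ hs he)
    · rw [h2 e he]; exact zero_le_one

theorem smul_mem_cone {K : Set (Set α)} (hK : IsLowerSet K) {a : α → ℝ} (ha : a ∈ cone K)
    {c : ℝ} (hc : 0 ≤ c) : c • a ∈ cone K := by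
  refine ⟨smul_nonneg hc ha.1, hK (fun e he => ?_) ha.2⟩
  intro h
  apply he
  simp [h]

theorem homeo_of_isFan {K : Set (Set α)} (hK : IsLowerSet K) {E : Set α} (hE : E.Finite)
    (hKE : ∀ s ∈ K, s ⊆ E) {r : ℕ} (h : IsFan K r) :
    Nonempty ({a : α → ℝ | 0 ≤ a ∧ support a ∈ K ∧ ∑ᶠ e, a e = 1} ≃ₜ
      Metric.sphere (0 : EuclideanSpace ℝ (Fin r)) 1) := by
  obtain ⟨L, hL⟩ := h
  set R := {a : α → ℝ | 0 ≤ a ∧ support a ∈ K ∧ ∑ᶠ e, a e = 1} with hR
  have hcomp : CompactSpace R := isCompact_iff_compactSpace.1 (realization_compact hK hE hKE)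
  have hcone : ∀ a : R, (a : α → ℝ) ∈ cone K := fun a => ⟨a.2.1, a.2.2.1⟩
  have hsum : ∀ a : R, ∑ e ∈ hE.toFinset, (a : α → ℝ) e = 1 := fun a => by
    rw [← finsum_eq_of_support hE (hKE _ a.2.2.1)]
    exact a.2.2.2
  have hne : ∀ a : R, L a ≠ 0 := by
    intro a h0
    have h1 : (0 : ℝ) • (a : α → ℝ) ∈ cone K := smul_mem_cone hK (hcone a) le_rfl
    have h2 := hL.injOn (hcone a) h1 (by simp [h0])
    have h3 := hsum a
    rw [h2] at h3
    simp at h3
  have hpos : ∀ a : R, 0 < ‖L a‖ := fun a => norm_pos_iff.2 (hne a)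
  let Φ : R → Metric.sphere (0 : EuclideanSpace ℝ (Fin r)) 1 := fun a =>
    ⟨‖L a‖⁻¹ • L a, by
      rw [mem_sphere_zero_iff_norm, norm_smul, norm_inv, norm_norm]
      exact inv_mul_cancel₀ (hpos a).ne'⟩
  have hcont : Continuous Φ := by
    refine Continuous.subtype_mk ?_ _
    have h1 : Continuous (fun a : R => L a) := L.continuous.comp continuous_subtype_val
    exact (h1.norm.inv₀ (fun a => (hpos a).ne')).smul h1
  have hinj : Injective Φ := by
    intro a b hab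
    have h1 : ‖L a‖⁻¹ • L a = ‖L b‖⁻¹ • L b := congrArg Subtype.val hab
    have h2 := hL.injOn (smul_mem_cone hK (hcone a) (inv_nonneg.2 (hpos a).le))
      (smul_mem_cone hK (hcone b) (inv_nonneg.2 (hpos b).le)) (by simpa only [map_smul] using h1)
    have h3 : ‖L a‖⁻¹ = ‖L b‖⁻¹ := by
      have h4 := congrArg (fun x : α → ℝ => ∑ e ∈ hE.toFinset, x e) h2
      simp only [Pi.smul_apply, smul_eq_mul, ← Finset.mul_sum, hsum, mul_one] at h4
      exact h4
    rw [h3] at h2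
    exact Subtype.ext (smul_right_injective _ (inv_ne_zero (hpos b).ne') h2)
  have hsurj : Surjective Φ := by
    rintro ⟨x, hx⟩
    rw [mem_sphere_zero_iff_norm] at hx
    obtain ⟨c, hc, hcx⟩ := hL.surjOn (mem_univ x)
    have hc0 : c ≠ 0 := by
      rintro rfl
      rw [map_zero] at hcx
      rw [← hcx] at hx
      simp at hx
    obtain ⟨e, he⟩ := Function.ne_iff.1 hc0
    have hS : 0 < ∑ e ∈ hE.toFinset, c e :=
      Finset.sum_pos' (fun i _ => hc.1 i)
        ⟨e, by simpa using hKE _ hc.2 he, lt_of_le_of_ne (hc.1 e) (Ne.symm he)⟩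
    set S := ∑ e ∈ hE.toFinset, c e with hSdef
    have h1 := smul_mem_cone hK hc (inv_nonneg.2 hS.le)
    refine ⟨⟨S⁻¹ • c, h1.1, h1.2, ?_⟩, Subtype.ext ?_⟩
    · rw [finsum_eq_of_support hE (hKE _ h1.2)]
      simp only [Pi.smul_apply, smul_eq_mul, ← Finset.mul_sum]
      exact inv_mul_cancel₀ hS.ne'
    · simp only [Φ, map_smul, hcx, norm_smul, hx, mul_one, norm_inv, Real.norm_eq_abs,
        abs_of_pos hS, inv_inv, smul_smul, mul_inv_cancel₀ hS.ne', one_smul]
  exact ⟨Continuous.homeoOfEquivCompactToT2 (f := Equiv.ofBijective Φ ⟨hinj, hsurj⟩) hcont⟩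

theorem main (M : Matroid α) [M.Finite] (hM : ∀ e, ¬ M.IsColoop e) {B B' : Set α}
    (hB : M.IsBase B) (hB' : M.IsBase B') :
    ∃ K : Set (Set α), IsLowerSet K ∧ (∀ s ∈ K, M.Indep s) ∧ B ∈ K ∧ B' ∈ K ∧
      Nonempty ({a : α → ℝ | 0 ≤ a ∧ Function.support a ∈ K ∧ ∑ᶠ e, a e = 1} ≃ₜ
        Metric.sphere (0 : EuclideanSpace ℝ (Fin B.ncard)) 1) := by
  obtain ⟨K, hK, hKi, h1, h2, h3⟩ := good_of _ M rfl hM B B' hB hB'
  exact ⟨K, hK, hKi, h1, h2,
    homeo_of_isFan hK M.ground_finite (fun s hs => (hKi s hs).subset_ground) h3⟩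

end Pool.Agent.MP_64e319_co
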